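import Mathlib

set_option autoImplicit false

namespace Pool.Agent.Results.MP_19fe04_lc.AffineF4

/-- `𝓑` is a Steiner `k`-system on `Ω`: every block has at least `k + 1` points, there are at
least two blocks, and any `k` distinct points lie in exactly one block. -/
structure IsSteinerSystem {Ω : Type} (k : ℕ) (𝓑 : Set (Set Ω)) : Prop where
  block_size : ∀ B ∈ 𝓑, ((k + 1 : ℕ) : ℕ∞) ≤ B.encard
  two_blocks : ∃ B₁ ∈ 𝓑, ∃ B₂ ∈ 𝓑, B₁ ≠ B₂
  unique_block : ∀ a : Fin k → Ω, Function.Injective a →
    ∃! B : Set Ω, B ∈ 𝓑 ∧ ∀ i, a i ∈ B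

/-- The permutation `g` maps the family `𝓑` of sets onto itself. -/
def MapsOnto {Ω : Type} (g : Equiv.Perm Ω) (𝓑 : Set (Set Ω)) : Prop :=
  {C : Set Ω | ∃ B ∈ 𝓑, C = g '' B} = 𝓑

/-- The automorphism group of `(Ω, 𝓑)`, as a set of permutations of `Ω`. -/
def Aut {Ω : Type} (𝓑 : Set (Set Ω)) : Set (Equiv.Perm Ω) := {g | MapsOnto g 𝓑}

/-- The set `G` of permutations acts transitively on ordered `k`-tuples of distinct points. -/
def IsKTransitive {Ω : Type} (k : ℕ) (G : Set (Equiv.Perm Ω)) : Prop :=
  ∀ a b : Fin k → Ω, Function.Injective a → Function.Injective b →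
    ∃ g ∈ G, ∀ i, g (a i) = b i

section Field

variable {K : Type} [Field K]

/-- Line through `a` and `b` over the subfield `{t | t ^ 4 = t}`. -/
def line {K : Type} [Field K] (a b : K) : Set K := {x | ∃ t : K, t ^ 4 = t ∧ x = a + t * (b - a)}

def Lines (K : Type) [Field K] : Set (Set K) := {B | ∃ a b : K, a ≠ b ∧ B = line a b}

def quad {K : Type} [Field K] (a b c : K) : Set K := {a, b, c, a + b + c}

def Quads (K : Type) [Field K] : Set (Set K) :=
  {B | ∃ a b c : K, a ≠ b ∧ a ≠ c ∧ b ≠ c ∧ B = quad a b c}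

variable [CharP K 2]

lemma two0 : (2 : K) = 0 := CharTwo.two_eq_zero

lemma four_iff {w : K} (hw : w ^ 2 + w + 1 = 0) (t : K) :
    t ^ 4 = t ↔ t = 0 ∨ t = 1 ∨ t = w ∨ t = w + 1 := by
  have h2 : (2 : K) = 0 := two0
  have key : t ^ 4 - t = t * (t - 1) * ((t - w) * (t - (w + 1))) := by
    linear_combination (t * (t - 1) * (t + w * t + 1)) * h2 - t * (t - 1) * hw
  constructor
  · intro h
    have : t * (t - 1) * ((t - w) * (t - (w + 1))) = 0 := by rw [← key, h, sub_self]
    rcases mul_eq_zero.1 this with h1 | h1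
    · rcases mul_eq_zero.1 h1 with h3 | h3
      · exact Or.inl h3
      · exact Or.inr (Or.inl (sub_eq_zero.1 h3))
    · rcases mul_eq_zero.1 h1 with h3 | h3
      · exact Or.inr (Or.inr (Or.inl (sub_eq_zero.1 h3)))
      · exact Or.inr (Or.inr (Or.inr (sub_eq_zero.1 h3)))
  · intro h
    have h0 : t * (t - 1) * ((t - w) * (t - (w + 1))) = 0 := by
      rcases h with h | h | h | h
      · rw [h]; ring
      · rw [h]; ring
      · rw [h]; ring
      · rw [h]; ring
    have := key.trans h0
    exact sub_eq_zero.1 this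

lemma f4_add {s t : K} (hs : s ^ 4 = s) (ht : t ^ 4 = t) : (s + t) ^ 4 = s + t := by
  have h2 : (2 : K) = 0 := two0
  linear_combination hs + ht + (2 * s ^ 3 * t + 3 * s ^ 2 * t ^ 2 + 2 * s * t ^ 3) * h2

lemma f4_sub {s t : K} (hs : s ^ 4 = s) (ht : t ^ 4 = t) : (s - t) ^ 4 = s - t := by
  have h2 : (2 : K) = 0 := two0
  linear_combination hs + ht + (t - 2 * s ^ 3 * t + 3 * s ^ 2 * t ^ 2 - 2 * s * t ^ 3) * h2

lemma f4_mul {s t : K} (hs : s ^ 4 = s) (ht : t ^ 4 = t) : (s * t) ^ 4 = s * t := by
  rw [mul_pow, hs, ht]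

lemma f4_div {s t : K} (hs : s ^ 4 = s) (ht : t ^ 4 = t) : (s / t) ^ 4 = s / t := by
  rw [div_pow, hs, ht]

lemma left_mem_line (a b : K) : a ∈ line a b := ⟨0, by ring, by ring⟩
lemma right_mem_line (a b : K) : b ∈ line a b := ⟨1, by ring, by ring⟩

lemma line_eq {a b x y : K} (hx : x ∈ line a b) (hy : y ∈ line a b) (hxy : x ≠ y) :
    line a b = line x y := by
  obtain ⟨s, hs, rfl⟩ := hx
  obtain ⟨t, ht, rfl⟩ := hy
  have hst : t - s ≠ 0 := by
    intro h
    apply hxy
    rw [sub_eq_zero.1 h]
  ext z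
  constructor
  · rintro ⟨u, hu, rfl⟩
    refine ⟨(u - s) / (t - s), f4_div (f4_sub hu hs) (f4_sub ht hs), ?_⟩
    field_simp
    ring
  · rintro ⟨r, hr, rfl⟩
    refine ⟨s + r * (t - s), f4_add hs (f4_mul hr (f4_sub ht hs)), ?_⟩
    ring

/-- the image of a line under a line-preserving permutation -/
lemma image_line {g : Equiv.Perm K} (hg : g ∈ Aut (Lines K)) {a b : K} (hab : a ≠ b) :
    g '' (line a b) = line (g a) (g b) := by
  have h1 : g '' (line a b) ∈ Lines K := by
    have h2 : g '' (line a b) ∈ {C : Set K | ∃ B ∈ Lines K, C = g '' B} :=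
      ⟨line a b, ⟨a, b, hab, rfl⟩, rfl⟩
    have h3 : {C : Set K | ∃ B ∈ Lines K, C = g '' B} = Lines K := hg
    rwa [h3] at h2
  obtain ⟨c, d, hcd, h⟩ := h1
  rw [h]
  apply line_eq
  · rw [← h]; exact ⟨a, left_mem_line a b, rfl⟩
  · rw [← h]; exact ⟨b, right_mem_line a b, rfl⟩
  · exact fun h => hab (g.injective h)

lemma map_mem_line {g : Equiv.Perm K} (hg : g ∈ Aut (Lines K)) {a b x : K} (hab : a ≠ b)
    (hx : x ∈ line a b) : g x ∈ line (g a) (g b) := by
  rw [← image_line hg hab]; exact ⟨x, hx, rfl⟩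

lemma mem_line_of_map {g : Equiv.Perm K} (hg : g ∈ Aut (Lines K)) {a b x : K} (hab : a ≠ b)
    (hx : g x ∈ line (g a) (g b)) : x ∈ line a b := by
  rw [← image_line hg hab] at hx
  obtain ⟨y, hy, hxy⟩ := hx
  rwa [g.injective hxy] at hy

lemma indep {A B C x y : K} (hAB : A ≠ B) (hC : C ∉ line A B) (hx : x ^ 4 = x) (hy : y ^ 4 = y)
    (h : x * (B - A) + y * (C - A) = 0) : x = 0 ∧ y = 0 := by
  have hy0 : y = 0 := by
    by_contra hy0
    apply hC
    refine ⟨(0 - x) / y, f4_div (f4_sub (by ring) hx) hy, ?_⟩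
    field_simp
    linear_combination h
  subst hy0
  refine ⟨?_, rfl⟩
  have h3 : x * (B - A) = 0 := by linear_combination h
  rcases mul_eq_zero.1 h3 with h4 | h4
  · exact h4
  · exact absurd (sub_eq_zero.1 h4).symm hAB

/-- Elements of `F₄ \ {0,1}`: roots of `w² + w + 1`. -/
lemma root_of {w : K} (hw : w ^ 2 + w + 1 = 0) {t : K} (ht : t ^ 4 = t) (h0 : t ≠ 0) (h1 : t ≠ 1) :
    t ^ 2 + t + 1 = 0 := by
  have h2 : (2 : K) = 0 := two0
  rcases (four_iff hw t).1 ht with h | h | h | h
  · exact absurd h h0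
  · exact absurd h h1
  · rw [h]; exact hw
  · rw [h]; linear_combination hw + (w + 1) * h2

lemma other_root {w : K} (hw : w ^ 2 + w + 1 = 0) {s t : K} (hs : s ^ 4 = s) (ht : t ^ 4 = t)
    (hs0 : s ≠ 0) (hs1 : s ≠ 1) (ht0 : t ≠ 0) (ht1 : t ≠ 1) (hst : s ≠ t) : t = s + 1 := by
  have h2 : (2 : K) = 0 := two0
  have hs' := root_of hw hs hs0 hs1
  rcases (four_iff hs' t).1 ht with h | h | h | h
  · exact absurd h ht0
  · exact absurd h ht1
  · exact absurd h.symm hst
  · exact h

/-- A permutation preserving the lines preserves the sum of any three distinct points. -/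
lemma map_sum {w : K} (hw : w ^ 2 + w + 1 = 0) {g : Equiv.Perm K} (hg : g ∈ Aut (Lines K))
    {a b c : K} (hab : a ≠ b) (hac : a ≠ c) (hbc : b ≠ c) :
    g (a + b + c) = g a + g b + g c := by
  have h2 : (2 : K) = 0 := two0
  have hw0 : w ≠ 0 := by
    rintro rfl
    apply one_ne_zero (α := K)
    linear_combination hw
  have hw4 : w ^ 4 = w := (four_iff hw w).2 (by tauto)
  have hw14 : (w + 1) ^ 4 = w + 1 := (four_iff hw (w + 1)).2 (by tauto)
  have hw1 : w ≠ 1 := by
    rintro rfl
    apply one_ne_zero (α := K)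
    linear_combination hw - h2
  have hw10 : w + 1 ≠ 0 := by
    intro h
    apply hw1
    linear_combination h - h2
  have hw11 : w + 1 ≠ 1 := by
    intro h
    apply hw0
    linear_combination h
  have hne : ∀ {x y : K}, x ≠ y → g x ≠ g y := fun h h' => h (g.injective h')
  by_cases hcol : c ∈ line a b
  · -- collinear case
    obtain ⟨t, ht, htc⟩ := hcol
    have hd : a + b + c ∈ line a b := ⟨1 + t, f4_add (by ring) ht, by
      rw [htc]; linear_combination a * h2⟩
    obtain ⟨t', ht', hC⟩ := map_mem_line hg hab (⟨t, ht, htc⟩ : c ∈ line a b)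
    obtain ⟨s, hs, hD⟩ := map_mem_line hg hab hd
    have hAB := hne hab
    have da : a + b + c ≠ a := by
      intro h; apply hbc; linear_combination h - c * h2
    have db : a + b + c ≠ b := by
      intro h; apply hac; linear_combination h - c * h2
    have dc : a + b + c ≠ c := by
      intro h; apply hab; linear_combination h - b * h2
    have e1 : s = t' + 1 := by
      apply other_root hw ht' hs
      · rintro rfl; apply hne hac; rw [hC]; ring
      · rintro rfl; apply hne hbc; rw [hC]; ring
      · rintro rfl; apply hne da; rw [hD]; ring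
      · rintro rfl; apply hne db; rw [hD]; ring
      · rintro rfl; apply hne dc; rw [hD, ← hC]
    rw [hD, hC, e1]
    linear_combination - (g a) * h2
  · -- non-collinear case
    have hAB := hne hab
    have hAC := hne hac
    have hC : g c ∉ line (g a) (g b) := fun h => hcol (mem_line_of_map hg hab h)
    -- points on the line `a b`
    have aux : ∀ x y : K, x ≠ y → ∃ r : K, r ^ 2 + r + 1 = 0 ∧
        g (x + w * (y - x)) = g x + r * (g y - g x) ∧
        g (x + (w + 1) * (y - x)) = g x + (r + 1) * (g y - g x) := by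
      intro x y hxy
      obtain ⟨r, hr, e⟩ := map_mem_line hg hxy (⟨w, hw4, rfl⟩ : x + w * (y - x) ∈ line x y)
      obtain ⟨r', hr', e'⟩ := map_mem_line hg hxy
        (⟨w + 1, hw14, rfl⟩ : x + (w + 1) * (y - x) ∈ line x y)
      have hyx : y - x ≠ 0 := sub_ne_zero.2 hxy.symm
      have n0 : r ≠ 0 := by
        rintro rfl
        have : x + w * (y - x) = x := g.injective (by rw [e]; ring)
        have h3 : w * (y - x) = 0 := by linear_combination this
        exact (mul_ne_zero hw0 hyx) h3
      have n1 : r ≠ 1 := by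
        rintro rfl
        have : x + w * (y - x) = y := g.injective (by rw [e]; ring)
        have h3 : (w - 1) * (y - x) = 0 := by linear_combination this
        exact (mul_ne_zero (sub_ne_zero.2 hw1) hyx) h3
      have n0' : r' ≠ 0 := by
        rintro rfl
        have : x + (w + 1) * (y - x) = x := g.injective (by rw [e']; ring)
        have h3 : (w + 1) * (y - x) = 0 := by linear_combination this
        exact (mul_ne_zero hw10 hyx) h3
      have n1' : r' ≠ 1 := by
        rintro rfl
        have : x + (w + 1) * (y - x) = y := g.injective (by rw [e']; ring)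
        have h3 : w * (y - x) = 0 := by linear_combination this
        exact (mul_ne_zero hw0 hyx) h3
      have hrr : r ≠ r' := by
        rintro rfl
        have : x + w * (y - x) = x + (w + 1) * (y - x) := g.injective (by rw [e, e'])
        have h3 : (y - x) = 0 := by linear_combination - this
        exact hyx h3
      have := other_root hw hr hr' n0 n1 n0' n1' hrr
      exact ⟨r, root_of hw hr n0 n1, e, by rw [e', this]⟩
    obtain ⟨r, hr, ep, ep'⟩ := aux a b hab
    obtain ⟨q, hq, eq, eq'⟩ := aux a c hac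
    have hr4 : r ^ 4 = r := (four_iff hr r).2 (by tauto)
    have hr14 : (r + 1) ^ 4 = r + 1 := (four_iff hr (r + 1)).2 (by tauto)
    have hq4 : q ^ 4 = q := (four_iff hq q).2 (by tauto)
    have hq14 : (q + 1) ^ 4 = q + 1 := (four_iff hq (q + 1)).2 (by tauto)
    -- `d` on the two cross lines
    have hub : b - a ≠ 0 := sub_ne_zero.2 hab.symm
    have huc : c - a ≠ 0 := sub_ne_zero.2 hac.symm
    have d1 : a + b + c ∈ line (a + w * (b - a)) (a + (w + 1) * (c - a)) := by
      refine ⟨w, hw4, ?_⟩
      linear_combination ((b - a) - (c - a)) * hw + (a - w * (b - a) + (c - a)) * h2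
    have d2 : a + b + c ∈ line (a + (w + 1) * (b - a)) (a + w * (c - a)) := by
      refine ⟨w + 1, hw14, ?_⟩
      linear_combination ((b - a) - (c - a)) * hw + (a + (c - a)) * h2
    have ne1 : a + w * (b - a) ≠ a + (w + 1) * (c - a) := by
      intro h
      apply hcol
      refine ⟨w / (w + 1), f4_div hw4 hw14, ?_⟩
      field_simp
      linear_combination - h
    have ne2 : a + (w + 1) * (b - a) ≠ a + w * (c - a) := by
      intro h
      apply hcol
      refine ⟨(w + 1) / w, f4_div hw14 hw4, ?_⟩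
      field_simp
      linear_combination - h
    obtain ⟨s, hs, D1⟩ := map_mem_line hg ne1 d1
    obtain ⟨s', hs', D2⟩ := map_mem_line hg ne2 d2
    rw [ep, eq'] at D1
    rw [ep', eq] at D2
    -- compare
    have E := D1.symm.trans D2
    have one4 : (1 : K) ^ 4 = 1 := by ring
    have hI := indep (A := g a) (B := g b) (C := g c)
      (x := r * (1 - s) - (r + 1) * (1 - s')) (y := s * (q + 1) - s' * q) hAB hC
      (f4_sub (f4_mul hr4 (f4_sub one4 hs)) (f4_mul hr14 (f4_sub one4 hs')))
      (f4_sub (f4_mul hs hq14) (f4_mul hs' hq4))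
      (by linear_combination E)
    obtain ⟨I1, I2⟩ := hI
    have hr0 : r ≠ 0 := by
      rintro rfl
      apply one_ne_zero (α := K)
      linear_combination hr
    have hq0 : q ≠ 0 := by
      rintro rfl
      apply one_ne_zero (α := K)
      linear_combination hq
    rcases (four_iff hr q).1 hq4 with h | h | h | h
    · exact absurd h hq0
    · exfalso
      rw [h] at hq
      apply one_ne_zero (α := K)
      linear_combination hq - h2
    · -- the case `q = r`
      rw [h] at I2 D1
      have hs1 : s = r := by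
        linear_combination r * I1 + (r + 1) * I2 - (r * s) * h2
      rw [D1, hs1]
      linear_combination (-(g a) + r * (g b - g a) - (g c - g a)) * h2
        + ((g c - g a) - (g b - g a)) * hr
    · exfalso
      rw [h] at I2
      apply one_ne_zero (α := K)
      linear_combination s * h2 - I1 - I2

/-- exchange property of quads -/
lemma quad_perm12 (a b c : K) : quad a b c = quad b a c := by
  ext x; simp only [quad, Set.mem_insert_iff, Set.mem_singleton_iff]
  rw [add_comm a b]; tauto

lemma quad_perm23 (a b c : K) : quad a b c = quad a c b := by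
  ext x; simp only [quad, Set.mem_insert_iff, Set.mem_singleton_iff]
  rw [add_right_comm a b c]; tauto

lemma quad_last (a b c : K) : quad a b c = quad a b (a + b + c) := by
  have h2 : (2 : K) = 0 := two0
  have : a + b + (a + b + c) = c := by linear_combination (a + b) * h2
  ext x; simp only [quad, Set.mem_insert_iff, Set.mem_singleton_iff]
  rw [this]; tauto

lemma quad_eq {a b c x y z : K} (hx : x ∈ quad a b c) (hy : y ∈ quad a b c) (hz : z ∈ quad a b c)
    (hxy : x ≠ y) (hxz : x ≠ z) (hyz : y ≠ z) : quad a b c = quad x y z := by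
  -- first step
  have step1 : ∀ {a b c x : K}, x ∈ quad a b c → ∃ b' c', quad a b c = quad x b' c' := by
    intro a b c x hx
    simp only [quad, Set.mem_insert_iff, Set.mem_singleton_iff] at hx
    rcases hx with rfl | rfl | rfl | rfl
    · exact ⟨b, c, rfl⟩
    · exact ⟨a, c, quad_perm12 _ _ _⟩
    · exact ⟨a, b, by rw [quad_perm23, quad_perm12]⟩
    · exact ⟨a, b, by rw [quad_last, quad_perm23, quad_perm12]⟩
  obtain ⟨b', c', h1⟩ := step1 hx
  rw [h1] at hy hz ⊢
  have step2 : ∀ {a b c x : K}, x ∈ quad a b c → x ≠ a → ∃ c', quad a b c = quad a x c' := by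
    intro a b c x hx hne
    simp only [quad, Set.mem_insert_iff, Set.mem_singleton_iff] at hx
    rcases hx with rfl | rfl | rfl | rfl
    · exact absurd rfl hne
    · exact ⟨c, rfl⟩
    · exact ⟨b, quad_perm23 _ _ _⟩
    · exact ⟨b, by rw [quad_last, quad_perm23]⟩
  obtain ⟨c'', h2⟩ := step2 hy hxy.symm
  rw [h2] at hz ⊢
  simp only [quad, Set.mem_insert_iff, Set.mem_singleton_iff] at hz
  rcases hz with rfl | rfl | rfl | rfl
  · exact absurd rfl hxz
  · exact absurd rfl hyz
  · rfl
  · exact quad_last _ _ _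

end Field

/-- The field: an algebraic closure of `F₂`. -/
abbrev K₀ : Type := AlgebraicClosure (ZMod 2)

lemma exists_omega : ∃ w : K₀, w ^ 2 + w + 1 = 0 := by
  obtain ⟨w, hw⟩ := IsAlgClosed.exists_root
    (Polynomial.X ^ 2 + Polynomial.X + 1 : Polynomial K₀) (by
      have : (Polynomial.X ^ 2 + Polynomial.X + 1 : Polynomial K₀).degree = 2 := by
        compute_degree!
      rw [this]; norm_num)
  refine ⟨w, ?_⟩
  simpa [Polynomial.IsRoot] using hw

lemma countable_K₀ : Countable K₀ := by
  rw [← Cardinal.mk_le_aleph0_iff]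
  refine (Algebra.IsAlgebraic.cardinalMk_le_max (ZMod 2) K₀).trans ?_
  exact max_le (Cardinal.mk_le_aleph0) le_rfl

lemma lines_steiner : IsSteinerSystem 2 (Lines K₀) := by
  obtain ⟨w, hw⟩ := exists_omega
  have h2 : (2 : K₀) = 0 := two0
  refine ⟨?_, ?_, ?_⟩
  · rintro B ⟨a, b, hab, rfl⟩
    have hw0 : w ≠ 0 := by
      rintro rfl
      apply one_ne_zero (α := K₀)
      linear_combination hw
    have hw1 : w ≠ 1 := by
      rintro rfl
      apply one_ne_zero (α := K₀)
      linear_combination hw - h2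
    have hsub : ({a, b, a + w * (b - a)} : Set K₀) ⊆ line a b := by
      rintro x (rfl | rfl | rfl)
      · exact left_mem_line _ _
      · exact right_mem_line _ _
      · exact ⟨w, (four_iff hw w).2 (by tauto), rfl⟩
    refine le_trans ?_ (Set.encard_le_encard hsub)
    have hba : b - a ≠ 0 := sub_ne_zero.2 hab.symm
    have n1 : a ≠ a + w * (b - a) := by
      intro h
      have : w * (b - a) = 0 := by linear_combination - h
      exact mul_ne_zero hw0 hba this
    have n2 : b ≠ a + w * (b - a) := by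
      intro h
      have : (w - 1) * (b - a) = 0 := by linear_combination - h
      exact mul_ne_zero (sub_ne_zero.2 hw1) hba this
    rw [Set.encard_insert_of_notMem, Set.encard_insert_of_notMem, Set.encard_singleton]
    · norm_num
    · simpa using n2
    · simp only [Set.mem_insert_iff, Set.mem_singleton_iff, not_or]
      exact ⟨hab, n1⟩
  · -- two different lines
    obtain ⟨x, hx⟩ : ∃ x : K₀, x ∉ line (0 : K₀) 1 := by
      by_contra hcon
      push Not at hcon
      have hfin : (line (0 : K₀) 1).Finite := by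
        have : line (0 : K₀) 1 ⊆ {0, 1, w, w + 1} := by
          rintro x ⟨t, ht, rfl⟩
          rcases (four_iff hw t).1 ht with h | h | h | h <;> simp [h]
        exact Set.Finite.subset (by simp) this
      have huniv : (Set.univ : Set K₀).Finite := hfin.subset (fun x _ => hcon x)
      exact Set.infinite_univ huniv
    refine ⟨line 0 1, ⟨0, 1, zero_ne_one, rfl⟩, line 0 x, ⟨0, x, ?_, rfl⟩, ?_⟩
    · rintro rfl; exact hx (left_mem_line _ _)
    · intro h; apply hx; rw [h]; exact right_mem_line _ _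
  · intro a ha
    have hab : a 0 ≠ a 1 := fun h => by simpa using ha h
    refine ⟨line (a 0) (a 1), ⟨⟨a 0, a 1, hab, rfl⟩, ?_⟩, ?_⟩
    · intro i
      fin_cases i
      · exact left_mem_line _ _
      · exact right_mem_line _ _
    · rintro B ⟨⟨c, d, _, rfl⟩, hB⟩
      exact line_eq (hB 0) (hB 1) hab

lemma quads_steiner : IsSteinerSystem 3 (Quads K₀) := by
  have h2 : (2 : K₀) = 0 := two0
  refine ⟨?_, ?_, ?_⟩
  · rintro B ⟨a, b, c, hab, hac, hbc, rfl⟩
    have da : a ≠ a + b + c := by
      intro h; apply hbc; linear_combination - h - c * h2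
    have db : b ≠ a + b + c := by
      intro h; apply hac; linear_combination - h - c * h2
    have dc : c ≠ a + b + c := by
      intro h; apply hab; linear_combination - h - b * h2
    rw [quad, Set.encard_insert_of_notMem, Set.encard_insert_of_notMem,
      Set.encard_insert_of_notMem, Set.encard_singleton]
    · norm_num
    · simpa using dc
    · simp only [Set.mem_insert_iff, Set.mem_singleton_iff, not_or]
      exact ⟨hbc, db⟩
    · simp only [Set.mem_insert_iff, Set.mem_singleton_iff, not_or]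
      exact ⟨hab, hac, da⟩
  · obtain ⟨w, hw⟩ := exists_omega
    have hw0 : w ≠ 0 := by
      rintro rfl
      apply one_ne_zero (α := K₀)
      linear_combination hw
    have hw1 : w ≠ 1 := by
      rintro rfl
      apply one_ne_zero (α := K₀)
      linear_combination hw - h2
    obtain ⟨x, hx⟩ : ∃ x : K₀, x ∉ quad (0 : K₀) 1 w := by
      by_contra hcon
      push Not at hcon
      have hfin : (quad (0 : K₀) 1 w).Finite := by
        unfold quad; simp
      have huniv : (Set.univ : Set K₀).Finite := hfin.subset (fun x _ => hcon x)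
      exact Set.infinite_univ huniv
    have hx' := hx
    simp only [quad, Set.mem_insert_iff, Set.mem_singleton_iff, not_or] at hx'
    refine ⟨quad 0 1 w, ⟨0, 1, w, zero_ne_one, hw0.symm, hw1.symm, rfl⟩,
      quad 0 1 x, ⟨0, 1, x, zero_ne_one, Ne.symm hx'.1, Ne.symm hx'.2.1, rfl⟩, ?_⟩
    intro h; apply hx; rw [h]; simp [quad]
  · intro a ha
    have h01 : a 0 ≠ a 1 := fun h => by simpa using ha h
    have h02 : a 0 ≠ a 2 := fun h => by simpa using ha h
    have h12 : a 1 ≠ a 2 := fun h => by simpa using ha h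
    refine ⟨quad (a 0) (a 1) (a 2), ⟨⟨a 0, a 1, a 2, h01, h02, h12, rfl⟩, ?_⟩, ?_⟩
    · intro i
      fin_cases i <;> simp [quad]
    · rintro B ⟨⟨c, d, e, _, _, _, rfl⟩, hB⟩
      exact quad_eq (hB 0) (hB 1) (hB 2) h01 h02 h12

lemma lines_transitive : IsKTransitive 2 (Aut (Lines K₀)) := by
  intro a b ha hb
  have ha' : a 1 - a 0 ≠ 0 := sub_ne_zero.2 (fun h => by simpa using ha h)
  have hb' : b 1 - b 0 ≠ 0 := sub_ne_zero.2 (fun h => by simpa using hb h)
  set u : K₀ := (b 1 - b 0) / (a 1 - a 0) with hu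
  have hu0 : u ≠ 0 := div_ne_zero hb' ha'
  set v : K₀ := b 0 - u * a 0 with hv
  let g : Equiv.Perm K₀ := (Equiv.mulLeft₀ u hu0).trans (Equiv.addRight v)
  have hgx : ∀ x, g x = u * x + v := fun x => rfl
  have himg : ∀ c d : K₀, g '' (line c d) = line (g c) (g d) := by
    intro c d
    ext x
    constructor
    · rintro ⟨y, ⟨t, ht, rfl⟩, rfl⟩
      refine ⟨t, ht, ?_⟩
      simp only [hgx]; ring
    · rintro ⟨t, ht, rfl⟩
      refine ⟨c + t * (d - c), ⟨t, ht, rfl⟩, ?_⟩
      simp only [hgx]; ring
  refine ⟨g, ?_, ?_⟩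
  · show {C : Set K₀ | ∃ B ∈ Lines K₀, C = g '' B} = Lines K₀
    ext C
    constructor
    · rintro ⟨B, ⟨c, d, hcd, rfl⟩, rfl⟩
      exact ⟨g c, g d, fun h => hcd (g.injective h), himg c d⟩
    · rintro ⟨c, d, hcd, rfl⟩
      refine ⟨line (g.symm c) (g.symm d), ⟨_, _, fun h => hcd (g.symm.injective h), rfl⟩, ?_⟩
      rw [himg]; simp
  · intro i
    fin_cases i
    · simp only [hgx, hv]; simp
    · simp only [hgx, hv, hu]
      simp only [Fin.mk_one]
      field_simp
      ring

lemma preserves_quads : ∀ g ∈ Aut (Lines K₀), MapsOnto g (Quads K₀) := by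
  intro g hg
  obtain ⟨w, hw⟩ := exists_omega
  have himg : ∀ a b c : K₀, a ≠ b → a ≠ c → b ≠ c →
      g '' (quad a b c) = quad (g a) (g b) (g c) := by
    intro a b c hab hac hbc
    rw [quad, quad, Set.image_insert_eq, Set.image_insert_eq, Set.image_insert_eq,
      Set.image_singleton, map_sum hw hg hab hac hbc]
  show {C : Set K₀ | ∃ B ∈ Quads K₀, C = g '' B} = Quads K₀
  ext C
  constructor
  · rintro ⟨B, ⟨a, b, c, hab, hac, hbc, rfl⟩, rfl⟩
    exact ⟨g a, g b, g c, fun h => hab (g.injective h), fun h => hac (g.injective h),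
      fun h => hbc (g.injective h), himg a b c hab hac hbc⟩
  · rintro ⟨a, b, c, hab, hac, hbc, rfl⟩
    have e1 : g.symm a ≠ g.symm b := fun h => hab (g.symm.injective h)
    have e2 : g.symm a ≠ g.symm c := fun h => hac (g.symm.injective h)
    have e3 : g.symm b ≠ g.symm c := fun h => hbc (g.symm.injective h)
    refine ⟨quad (g.symm a) (g.symm b) (g.symm c), ⟨_, _, _, e1, e2, e3, rfl⟩, ?_⟩
    rw [himg _ _ _ e1 e2 e3]; simp

/-- There are `k ≠ l` with `k, l ≥ 2`, a countably infinite set `Ω` and a Steiner `k`-system `𝓑`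
on `Ω` whose automorphism group is `k`-transitive on `Ω` and preserves a Steiner `l`-system. -/
theorem result : ∃ (k l : ℕ) (Ω : Type) (𝓑 𝓒 : Set (Set Ω)),
    2 ≤ k ∧ 2 ≤ l ∧ k ≠ l ∧ Countable Ω ∧ Infinite Ω ∧
    IsSteinerSystem k 𝓑 ∧ IsKTransitive k (Aut 𝓑) ∧
    IsSteinerSystem l 𝓒 ∧ ∀ g ∈ Aut 𝓑, MapsOnto g 𝓒 :=
  ⟨2, 3, K₀, Lines K₀, Quads K₀, le_rfl, by norm_num, by norm_num, countable_K₀, inferInstance,
    lines_steiner, lines_transitive, quads_steiner, preserves_quads⟩

end Pool.Agent.Results.MP_19fe04_lc.AffineF4
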